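import Pool.Agent.U201.PC.Nef
import Pool.Agent.X324.CF.Plus2

set_option autoImplicit false

/-!
# The cone conjecture for Calabi–Yau pairs: reduction to the Albanese fibre

Let `(X, Δ)` be a klt Calabi–Yau pair. By Ambro (2005) the Albanese map of `(X, Δ)` is a fibre bundle
which becomes trivial after a finite étale covering, and so
`(X, Δ) = (A × (F, Δ_F)) / G`, where `A` is an abelian variety, `(F, Δ_F)` is a klt Calabi–Yau pair of
irregularity zero, and a finite group `G` acts diagonally and freely. The theorem of this file says: if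
`(F, Δ_F)` satisfies the existence part of the cone conjecture, then `(X, Δ)` satisfies the cone
conjecture.

More precisely, let `A = V / Λ` be an abelian variety, `F` a normal projective variety, `ℚ`-factorial
with free class group, and `X = (A × F) / G`, where the finite group `G` acts diagonally (freely or
not). Let `Δ` be any effective divisor with real coefficients on `X` such that `Δ · C = 0` for the
images `C` of the curves `C' × {point}` of `A × F`. (If `A × F → X` is étale in codimension one, this
follows from `K_X + Δ ≡ 0`.) Then the pullback of `Δ` is `A × Δ_F` for a divisor `Δ_F` on `F`. Suppose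
that

* there is a rational polyhedral cone `Π_F ⊆ Nef(F) ∩ Eff(F)` whose translates under `Aut(F, Δ_F)`
  cover `Nef(F) ∩ Eff(F)`, and
* only finitely many elements of `Aut(F, Δ_F)` act trivially on `Cl(F)`. (This holds if `(F, Δ_F)` is
  a klt Calabi–Yau pair of irregularity zero.)

`Aut(F, Δ_F)` can be infinite, the nef cone of `F` need not be polyhedral, and nothing is assumed about
the action of `G` on `Nef(F)`. By Totaro (2010) both conditions hold for klt Calabi–Yau pairs
`(F, Δ_F)` of dimension two and irregularity zero, for example for the blowup `F` of the plane in the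
nine base points of a general pencil of cubics. So Q1 holds for all these pairs `(X, Δ)` whose Albanese
fibre `F` is a surface.

Conclusion: `Nef^e(X)` has a rational polyhedral fundamental domain for the action of `Aut(X, Δ)`, and
`Nef^e(X)` is the convex hull `Nef^+(X)` of the rational nef classes. The automorphisms of `(X, Δ)`
which are induced by pairs (affine transformation of `V`, automorphism of `(F, Δ_F)`) are sufficient.

The proof. (1) The Siegel property of the action of `Aut(F, Δ_F)` on the ample cone (`EC.siegel`), and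
the finite kernel, show that the groups `φ G φ⁻¹`, `φ ∈ Aut(F, Δ_F)`, which have invariant ample
classes in `Π_F` form finitely many types up to scalars. Here one needs that the image of `G` is
contained in `Aut(F, Δ_F)` (`PC.gal_autS`), since the kernel of the action of the bigger group `Aut(F)`
may be infinite. So the elements of `Aut(F, Δ_F)` which commute with `G` (up to scalars) move the
`G`-invariant ample classes into finitely many rational polyhedral cones (`PC.covering`). (2) For the
hermitian forms on `V` this is reduction theory; the automorphisms of both factors are combined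
(`PC.coreP`). The components of `Δ` have Chern form zero, and so their sections are constant in the
direction of `V` up to exponential factors (`PC.const_sect`); so all these automorphisms preserve `Δ`.

`IsAutS`, `IsConePair`, `InSupp`, `Keeps` and `TrivialOnA` are defined in `Pool.Agent.U201.PC.Defs`;
`NefF`, `EffF`, `IsAut`, `ext`, `Descends`, `IsPull` and `nefEff` in `Pool.Agent.U201.EC.Defs`; `rv` in
`Pool.Agent.X324.CF.Poly`; `Cl`, `Semistable`, `SemiampleF`, `Induces`, `Scal`, `Grp`, `base`, `Inv`,
`IsQuotient`, `Sheaf`, `EffDiv`, `N1`, `val`, `integral`, `effective`, `semiample`, `coneHull`,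
`nefCone` and `effCone` in `Pool.Agent.X324.CF.Defs`; `IsTorusQuotient` in
`Pool.Agent.W594.SYZ.Defs2`; `IsPositiveForm` in `Pool.Agent.W594.SYZ.TQDefs`; `LinGrp`, `Preserves`
and `IsFundDomain` in `Pool.Agent.Y167.Stm`; `cone` in `Pool.Agent.Y167.ConeDef`.
-/

namespace Pool.Agent.Results.MP_9f99c5_ag.EquivariantPairs

open Pool.Agent.W594.SYZ2 Pool.Agent.X324.CF Pool.Agent.U201.EC Pool.Agent.U201.PC
open Pool.Agent.Y167 (cone)
open Pool.Agent.Y167.CC (LinGrp Preserves IsFundDomain)

/-- The space `N^1(X)` of numerical classes with real coefficients. -/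
abbrev NX {V R : Type*} [NormedAddCommGroup V] [NormedSpace ℂ V] [CommRing R] [Algebra ℂ R] {ρ : ℕ}
    (𝒜 : Cl ρ → Submodule ℂ R) (Γ : Grp V R) : Type _ := N1 𝒜 Γ (LinearMap.id : V →ₗ[ℂ] V)

/-- The support of the divisor `Δ_F` on `F`, the restriction of `Δ` to the image of `{0} × F`. -/
def suppF {V R : Type*} [NormedAddCommGroup V] [NormedSpace ℂ V] [CommRing R] [Algebra ℂ R] {ρ : ℕ}
    {𝒜 : Cl ρ → Submodule ℂ R} {Γ : Grp V R} {ι : Type*} (Δ : EffDiv 𝒜 Γ ι) :
    Set (R →ₐ[ℂ] ℂ) := {p | InSupp Δ 0 p}

/-- `𝒢` is a group of linear automorphisms of `N^1(X)` which preserves the integral classes and the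
nef effective cone, and which contains the pullbacks by all automorphisms of `X = (V × F) / Γ` which
map the support of `Δ` onto itself and are given by pairs `(f, φ)`, where `f` is an affine
transformation of `V` and `φ` an automorphism of `F`. The image of `Aut(X, Δ)` has these properties. -/
structure IsAutXD {V R : Type*} [NormedAddCommGroup V] [NormedSpace ℂ V] [CommRing R] [Algebra ℂ R]
    {ρ : ℕ} {𝒜 : Cl ρ → Submodule ℂ R} {Γ : Grp V R} (u : Cl ρ) {ι : Type*} (Δ : EffDiv 𝒜 Γ ι)
    (𝒢 : LinGrp (NX 𝒜 Γ)) : Prop where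
  int : Preserves 𝒢 (integral 𝒜 Γ LinearMap.id)
  nef_eff : Preserves 𝒢 (nefEff 𝒜 Γ LinearMap.id u)
  pull : ∀ (f : V ≃ᵃ[ℂ] V) (φ : R ≃ₐ[ℂ] R) (σ : Cl ρ ≃+ Cl ρ), IsAut 𝒜 u φ σ →
    Keeps u Δ f φ → Descends 𝒜 Γ f φ → ∀ g, IsPull f σ g → g ∈ 𝒢

/-- Let `X = (V × F) / Γ` be a projective quotient of `A × F` by a finite group acting diagonally, and
`Δ` an effective divisor with real coefficients on `X` which is numerically trivial on the images of
the curves `C' × {point}`, such that `F` and `Δ_F` satisfy the existence part of the cone conjecture.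
There is a finite set `S` of integral classes such that the cone spanned by `S` is contained in the nef
effective cone `Nef^e(X)` and is a fundamental domain for the action of `𝒢` on this cone. Moreover,
`Nef^e(X)` is the convex hull of the rational nef classes. -/
theorem result {V R : Type*} [NormedAddCommGroup V] [NormedSpace ℂ V] [FiniteDimensional ℂ V]
    [CommRing R] [IsDomain R] [Algebra ℂ R] {ρ : ℕ}
    (𝒜 : Cl ρ → Submodule ℂ R) [GradedAlgebra 𝒜] (u : Cl ρ)
    (Γ : Grp V R) (hX : IsQuotient 𝒜 u Γ)
    (hproj : ∃ (L : Sheaf 𝒜 Γ) (H : V → V → ℂ), L.IsChern H ∧ IsPositiveForm H)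
    {ι : Type*} (Δ : EffDiv 𝒜 Γ ι) (hΔ : TrivialOnA Δ) (hF : IsConePair 𝒜 u (suppF Δ))
    (𝒢 : LinGrp (NX 𝒜 Γ)) (h𝒢 : IsAutXD u Δ 𝒢) :
    (∃ S : Finset (NX 𝒜 Γ), ↑S ⊆ integral 𝒜 Γ LinearMap.id ∧ cone S ⊆ nefEff 𝒜 Γ LinearMap.id u ∧
      IsFundDomain 𝒢 (nefEff 𝒜 Γ LinearMap.id u) (cone S)) ∧
    nefEff 𝒜 Γ LinearMap.id u = convexHull ℝ (nefCone 𝒜 Γ LinearMap.id u ∩
      {a | ∃ m : ℕ, 0 < m ∧ (m : ℝ) • a ∈ integral 𝒜 Γ LinearMap.id}) := by
  obtain ⟨H₀, Rl⟩ := rel_id hX hproj
  refine ⟨core_nef hX Δ hΔ hF Rl 𝒢 h𝒢.int h𝒢.nef_eff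
    fun f φ σ h1 h2 h3 _ g hg => h𝒢.pull f φ σ h1 h2 h3 g hg, ?_⟩
  have h1 := cp_eqP hF.sys hX (goodQ_nef hF hX) Rl
  have h2 := closure_eqP hF.sys hX (goodQ_nef hF hX) Rl
  have h3 : nefEff 𝒜 Γ (LinearMap.id : V →ₗ[ℂ] V) u
      = closure (coneHull (semiample 𝒜 Γ LinearMap.id u)) ∩ effCone 𝒜 Γ LinearMap.id := rfl
  have h4 : nefCone 𝒜 Γ (LinearMap.id : V →ₗ[ℂ] V) u
      = closure (coneHull (semiample 𝒜 Γ LinearMap.id u)) := rfl
  rw [h3, h1, h4, h2, cp_eq_convexHull KP_zero fun t ht a ha => KP_smul ht ha]
  rfl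

end Pool.Agent.Results.MP_9f99c5_ag.EquivariantPairs
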