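import Pool.Agent.U189.FV.Top
import Pool.Agent.U189.MG.RelNef

/-!
# Nef cones, absolute and relative, of the small modifications of the modifications of arbitrary
# varieties with a finite morphism to a toric variety

**The varieties.** Let `Y` be any normal projective variety of dimension `n ≥ 1` over `ℂ` with the
function field `K`, and `x 0, ..., x n` sections of an ample line bundle `H` on `Y` without common zeros.
They define a finite morphism from `Y` to the projective `n`-space. `X` is the normalization in `K` of the
toric modification of the projective space which is given by `fan`: a modification of `Y` with a finite
morphism to a toric variety, and a toroidal modification of `Y` if the divisors `x k = 0` have normal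
crossings (see `Pool/Agent/U189/FV/Top.lean`, where the definitions `affine`, `minimalOrder`,
`multiplicities`, `InCone`, `IsFan` and `coefficient` are explained). `D 1, ..., D p` are the pullbacks to
`X` of toric `ℚ`-Cartier divisors; the coefficients of their pullbacks at the prime divisors `P` over `X` are
the `δ i P`.

**The small modifications.** `X'` is any projective variety which is isomorphic to `X` in codimension
one, such that the strict transforms of the `D i` are `ℚ`-Cartier and some combination of them is ample
(`IsSmallModification`, with the coefficients `δ'`; `X' = X` is allowed if some combination of the `D i`
is ample on `X`).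

**The contractions.** Let `ν0` be an integral combination which is nef on `X'`. It is semiample
(`MP_5ee2d0_ag.FiniteCoverFreeness`) and defines a morphism `X' → Z` with connected fibres onto a
projective variety `Z`; `ν0 = 0` is allowed, then `Z` is a point. A real combination of the `D i` is nef
over `Z` if and only if it becomes nef on `X'` if a multiple of `ν0` is added (`IsNefOver`), if the classes
of the `D i` span `N¹(X')`; indeed the cone of the nef combinations on `X'` is given by finitely many
inequalities of the form `lam · C ≥ 0` with curves `C`, by the theorem for `ν0 = 0`.

**The theorem.** Let `e j`, `j < q`, be integral vectors, `E j = ∑ i, e j i * D i`, for instance `E = D`, or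
`E` such that the classes of the `E j` over `Z` are a basis of the image of the group which is
generated by the `D i` in `N¹(X'/Z)`.
(1) The cone of the real combinations of the `E j` which are nef over `Z` is spanned by finitely many
integral combinations, which are base point free over `Z` (`BasePointFreeOver`). In particular all
combinations which are nef over `Z` are effective over `Z` (`Nef = Nef^e` for `Z` a point).
(2) If the classes of the `E j` over `Z` are a basis (`IsBasisOver`) then EVERY group `Γ` of invertible
integral matrices which preserves this cone (for instance the group of the matrices of
`Aut(X', Δ)`, `Z` a point) is finite, and there is a rational polyhedral cone, spanned by combinations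
which are base point free over `Z`, which is a fundamental domain for the action of `Γ` on the nef cone.

**Pairs.** Let `V` be a normal projective variety with `K_V` `ℚ`-linearly equivalent to a rational multiple
of `H` (any Fano or Calabi-Yau variety, any smooth complete intersection of dimension `≥ 3`), and let the
divisors `x k = 0` on `V` be multiples of divisors with normal crossings. Let `Y` be an abelian cover of `V`
(or `V` itself) which is branched along these divisors. The klt pairs `(Y, Δ)` with `K_Y + Δ ≡ 0`, where `Δ`
is a combination of the divisors `x k = 0` with real coefficients `< 1`, and all their crepant
modifications `(X, Δ)` which are given by fans, are klt Calabi-Yau pairs, as well as the pairs `(X', Δ)`.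
If the Picard number of `V` is `1`, `n ≥ 3`, `V` is smooth and only strata which are irreducible are
modified, then the `D i` can be chosen as a basis of `N¹(X)` (a theorem of Lefschetz type). These
remarks are not used and not proved here.

**Relation to the other results.** `MP_20d318_ag.NormalCrossingModels` is the same conclusion for the
abelian covers `Y` of the projective `n`-space which are branched along `n + 1` hypersurfaces with normal
crossings, and `MP_9f99c5_ag.ToroidalModels` the case `Z` a point for abelian covers of products of
projective spaces, one smooth hypersurface in each factor. Here `Y` is arbitrary.
`MP_e49dc9_ag.FiniteCoverNefCones` is the case `Z` a point (`ν0 = 0`, `e` the unit matrix).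

**Proof.** New is the finite generation of the Cox ring of the `D i` (`Pool/Agent/U189/FV`): the sections
are integral over the sections on the toric variety, and they are contained in a finitely generated
module over the algebra of the monomials in a cone; every `Y` with a finite morphism to the
projective space is allowed. The absolute statements are deduced from it by the library of `helper660`
(`Pool/Agent/U660/MD`), the relative ones by `Pool/Agent/U189/MG/Rel.lean` and `RelNef.lean`.
-/

set_option autoImplicit false

open FF MvPolynomial Pool.Agent.W602.GT

namespace Pool.Agent.Results.MP_9f99c5_ag.FiniteCoverRelativeCones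

open Pool.Agent.Results.MP_89a3f8_ag.TerminationOfFlips
  (IsSection BasePointFree Semiample IsSmallModification)
open Pool.Agent.U660.MD Pool.Agent.U189.MG
open Pool.Agent.U189.ND (affine minimalOrder InCone)
open Pool.Agent.U189.FV

/-- **Nef cones, absolute and relative.** Let `K` be the function field of
a normal projective variety `Y` of dimension `n`, `x 0, ..., x n` sections of an ample line bundle without
common zeros, `X` the normalization in `K` of the toric modification of the projective `n`-space which is
given by `fan`, and `D i`, `i < p`, the pullbacks of toric `ℚ`-Cartier divisors with the degrees `β i` and the
coefficients `c i`. For each small modification `X'` of `X` (with the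
coefficients `δ'`) and every integral combination `ν0` which is nef on `X'`, with the contraction
`X' → Z`, and all integral vectors `e j`, `j < q`: the cone of the real combinations of the `e j` which are
nef over `Z` is spanned by finitely many integral ones which are base point free over `Z`; and if the
classes of the `e j` over `Z` are a basis then every group `Γ` of invertible integral matrices which
preserves this cone is finite and has a rational polyhedral fundamental domain on it, spanned by
combinations which are base point free over `Z`. -/
theorem result (n p : ℕ) (hn : 1 ≤ n) (K : Type) [Field K] [Algebra ℂ K] (x : Fin (n + 1) → K)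
    (hx0 : x 0 ≠ 0) (hbas : IsTranscendenceBasis ℂ (affine x))
    (hfin : FiniteDimensional (IntermediateField.adjoin ℂ (Set.range (affine x))) K)
    (fan : Finset (Finset (Fin (n + 1) → ℕ))) (hfan : IsFan fan)
    (c : Fin p → (Fin (n + 1) → ℕ) → ℚ) (β : Fin p → ℤ)
    (u : Finset (Fin (n + 1) → ℕ) → Fin p → Fin (n + 1) → ℚ)
    (hlin : ∀ σ ∈ fan, ∀ i v, (∃ k, v k = 0) → InCone σ v → c i v = ∑ k, u σ i k * v k)
    (δ : Fin p → Place ℂ K → ℚ) (hδ : ∀ i P, δ i P = coefficient x (c i) (β i) P)
    (δ' : Fin p → Place ℂ K → ℚ) (hδ' : IsSmallModification n δ δ')
    (ν0 : Fin p → ℤ) (hν0 : IsNef n δ' fun i => (ν0 i : ℝ)) (q : ℕ) (e : Fin q → Fin p → ℤ) :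
    (∃ (B : ℕ) (h : Fin B → Fin q → ℤ),
      (∀ b, BasePointFreeOver n δ' ν0 (combinationZ e (h b))) ∧
      {x | IsNefOver n δ' ν0 (combination e x)} = coneOf h) ∧
    (IsBasisOver n δ' ν0 e → ∀ Γ : Subgroup (Matrix (Fin q) (Fin q) ℤ)ˣ,
      (∀ γ ∈ Γ, ∀ x, IsNefOver n δ' ν0 (combination e x) →
        IsNefOver n δ' ν0 (combination e (apply γ x))) →
      Finite Γ ∧ ∃ (M : ℕ) (π : Fin M → Fin q → ℤ),
        (∀ b, BasePointFreeOver n δ' ν0 (combinationZ e (π b))) ∧
          IsFundamentalDomain Γ {x | IsNefOver n δ' ν0 (combination e x)} (coneOf π)) :=
  rel_nef (cox_fv n p hn K x hx0 hbas hfin fan hfan c β u hlin δ hδ) hδ' hν0 e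

end Pool.Agent.Results.MP_9f99c5_ag.FiniteCoverRelativeCones
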