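import Pool.Agent.U201.PR.PairFin

set_option autoImplicit false

/-!
# The cone conjecture for products of pairs

Products of klt Calabi–Yau pairs are klt Calabi–Yau pairs. The theorem of this file says: the cone
conjecture (its existence part, for the group `Aut(F, Δ)`) with a finite kernel is closed under
products.

Let `𝒞` be a set of pairs `(F_i, Δ_i)`, where `F_i` is a normal projective variety, `ℚ`-factorial with
free class group, such that

* there is a rational polyhedral cone in `Nef^e(F_i)` whose translates under `Aut(F_i, Δ_i)` cover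
  `Nef^e(F_i)`, and
* only finitely many automorphisms of `(F_i, Δ_i)` act trivially on `Cl(F_i)`.

Then every product of finitely many pairs in `𝒞` has the same properties; the divisor of the product
`(F₁, Δ₁) × (F₂, Δ₂)` is `Δ₁ × F₂ + F₁ × Δ₂`. Moreover, the nef cone and the effective cone of a product
are the products of the cones of the factors, and every automorphism of the product which preserves
the support of the divisor and acts trivially on the class group is a product of automorphisms which
preserve the supports of the divisors `Δ_i`. Nothing is assumed about the other automorphisms of `F_i`: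
the group of all automorphisms of `F_i` which act trivially on `Cl(F_i)` can have positive dimension.

The varieties are given by their Cox rings `R = ⨁ H⁰(F, O_F(β))`, and by the Künneth formula the Cox
ring of a product is the tensor product of the Cox rings; `f` is the equation of a divisor with support
`Δ`. The proof: an automorphism which acts trivially on the classes preserves the two Cox rings in the
tensor product, as these are spanned by the pieces of degree `(β₁, 0)` and `(0, β₂)`. If it preserves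
the support of the product divisor, a point of `F₂` outside the divisor and its image shows that its
restriction to `F₁` preserves the support of `Δ₁` (`PR.split_autS`); for this the points of products
have to be dense (`PR.dense_prod`).
-/

namespace Pool.Agent.Results.MP_9f99c5_ag.ProductsOfPairs

open Pool.Agent.X324.CF Pool.Agent.U201.EC Pool.Agent.U201.PC Pool.Agent.U201.PR

theorem result :
    (∀ 𝒞 : Pair → Prop, (∀ F, 𝒞 F → NefGood F) → ∀ F, PairProductOf 𝒞 F → NefGood F) ∧
    ∀ (F₁ F₂ : Pair) (R : Type) [CommRing R] [Algebra ℂ R] [IsDomain R]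
      (𝒜 : Cl (F₁.ρ + F₂.ρ) → Submodule ℂ R) [GradedAlgebra 𝒜] (ι₁ : F₁.R →ₐ[ℂ] R)
      (ι₂ : F₂.R →ₐ[ℂ] R), NefGood F₁ → NefGood F₂ → IsProduct F₁.𝒜 F₂.𝒜 𝒜 ι₁ ι₂ →
      (∀ b, b ∈ NefF 𝒜 (Fin.append F₁.u F₂.u) ↔
        pr1 b ∈ NefF F₁.𝒜 F₁.u ∧ pr2 b ∈ NefF F₂.𝒜 F₂.u) ∧
      (∀ b, b ∈ EffF 𝒜 ↔ pr1 b ∈ EffF F₁.𝒜 ∧ pr2 b ∈ EffF F₂.𝒜) ∧
      (∀ φ : R ≃ₐ[ℂ] R,
        IsAutS 𝒜 (Fin.append F₁.u F₂.u) {p | p (ι₁ F₁.f * ι₂ F₂.f) = 0} φ (AddEquiv.refl _) →
        ∃ (φ₁ : F₁.R ≃ₐ[ℂ] F₁.R) (φ₂ : F₂.R ≃ₐ[ℂ] F₂.R),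
          IsAutS F₁.𝒜 F₁.u {p | p F₁.f = 0} φ₁ (AddEquiv.refl _) ∧
          IsAutS F₂.𝒜 F₂.u {p | p F₂.f = 0} φ₂ (AddEquiv.refl _) ∧
          (∀ a, φ (ι₁ a) = ι₁ (φ₁ a)) ∧ ∀ a, φ (ι₂ a) = ι₂ (φ₂ a)) :=
  ⟨fun _ h𝒞 _ hF => nefGood_prod h𝒞 hF, fun _ _ _ _ _ _ _ _ _ _ h1 h2 P => pair_cones_prod h1 h2 P⟩

end Pool.Agent.Results.MP_9f99c5_ag.ProductsOfPairs
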