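import Pool.Agent.U660.MD.Nef
import Pool.Agent.Q57.CX.Top
import Pool.Agent.Q57.FT.Top

/-!
# The nef cone conjecture for the toroidal models of covers of products of projective spaces and for
# all their small modifications

Let `F i` be a form of degree `d i` in `n i + 1` variables whose zero set in the projective
`n i`-space is a smooth hypersurface, and let `H i` be the cyclic hypersurface `w ^ (d i) = F i` in
the projective `(n i + 1)`-space. Let `K` be the function field of a quotient
`Y = (H 1 × ... × H r) / G`, where `G` is any group of diagonal automorphisms
`w i ↦ ζ i * w i`, `ζ i ^ (d i) = 1`. Equivalently, `K` is generated by the affine coordinates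
`x i j / x i 0` of the product of the projective `n i`-spaces and by roots `z j`,
`z j ^ (m j) = ∏ i, (F i (x i) / x i 0 ^ (d i)) ^ (a j i)`, where `m j` divides `a j i * d i`: the
abelian covers of the product of the projective spaces which are branched along the hypersurfaces
`F i = 0` of the factors. There is no condition on the dimensions and the degrees. The toroidal
modifications `X` of `Y` are given by the fans `fan`, and `D 1, ..., D p` are toroidal `ℚ`-Cartier
divisors on `X`; the coefficients of their pullbacks at the prime divisors `P` over `X` are the
`δ i P`. See `Pool.Agent.Results.MP_89a3f8_ag.TerminationOfFlips`, whose definitions (`Smooth`,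
`Admissible`, `InCone`, `IsFan`, `affine`, `minimalOrder`, `multiplicities`, `coefficient`,
`IsSection`, `BasePointFree`, `Semiample`, `IsSmallModification`) are used here.

**Calabi-Yau pairs.** Many of these `X` carry klt Calabi-Yau pairs `(X, Δ)`: for instance the crepant
toroidal (partial) resolutions of the quotients `Y` with `K_Y = 0`, that is
`n i + 1 = d i * (1 - 1 / e i)` for the ramification indices `e i`, and the pairs with a boundary `Δ` which
is a combination of toroidal divisors and of general members of free linear systems.

**Small modifications.** `X'` is any projective variety which is isomorphic to `X` in codimension one,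
such that the strict transforms of the `D i` are `ℚ`-Cartier and some combination of them is ample
(`IsSmallModification`; `X' = X` is allowed if some combination of the `D i` is ample on `X`). If all
`n i ≥ 3` and the `D i` generate the toroidal divisors of a `ℚ`-factorial `X` then these are all the
`ℚ`-factorial small modifications of `X`, and the `D i` generate `N¹(X')` (Lefschetz; this remark is not
used and not proved here).

**The theorem.** (1) On `X` itself the cone of the nef real combinations of the `D i` is spanned by
finitely many integral combinations, which are base point free. Nefness is meant here in the sense of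
`IsNefUpTo` (a fixed divisor is added; no combination of the `D i` is assumed to be ample) or in the sense
of `IsNef` (limits of semiample combinations): they agree.
(2) On every small modification `X'` the cone of the nef real combinations of the `D i` is spanned by
finitely many integral combinations, which are base point free on `X'`. In particular all nef combinations
are effective, and the nef cone is the nef effective cone.
(3) If the `D i` are numerically independent on `X'` (`lam` and `-lam` are both nef only for `lam = 0`), so
that the real combinations of the `D i` are numerical classes, then for EVERY group `Γ` of invertible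
integral matrices which preserve the nef cone (for instance the group of the matrices of the
automorphisms of `X'` which preserve the support of `Δ`, if the classes of the `D i` are a basis of
`N¹(X')`) the group `Γ` is finite, and there is a rational polyhedral cone `Π`, spanned by base point free
divisors, which is a fundamental domain for the action of `Γ` on the nef cone.

This is the cone conjecture for all klt Calabi-Yau pairs `(X', Δ)` on all the small modifications `X'`.
The proof uses the finite generation of the Cox ring (`Q57.CX.main_cox`) and, over it, the criterion of
`U660/MD`: a rational combination is semiample on `X'` if and only if for every prime divisor `P` over `X`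
it is in the cone of the degrees of the generators of the Cox ring which have minimal order at `P`.
-/

set_option autoImplicit false

open FF MvPolynomial Pool.Agent.W602.GT

namespace Pool.Agent.Results.MP_9f99c5_ag.ToroidalModels

open Pool.Agent.Results.MP_89a3f8_ag.TerminationOfFlips
open Pool.Agent.U660.MD

/-- **The nef cone conjecture for the toroidal models and their small modifications.** Let `K` be the
function field of an abelian cover `Y` of the product of the projective `n i`-spaces which is branched
along smooth hypersurfaces `F i = 0` of the factors, `X` the toroidal modification of `Y` which is given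
by `fan`, and `D i`, `i < p`, toroidal `ℚ`-Cartier divisors on `X` with the degrees `β i t` and the
coefficients `c i`.
(1) The cone of the nef real combinations of the `D i` on `X`, in each of the two senses, is spanned by
finitely many integral combinations which are base point free on `X`.
(2) The same holds for the nef real combinations on each small modification `X'` of `X` (with the
coefficients `δ'`).
(3) If the `D i` are numerically independent on `X'` then every group `Γ` of invertible integral
matrices which preserves the nef cone is finite, and some rational polyhedral cone, spanned by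
combinations which are base point free on `X'`, is a fundamental domain for the action of `Γ` on the
nef cone. -/
theorem result (r N R p : ℕ) (n d : Fin r → ℕ) (hr : 1 ≤ r) (hn : ∀ i, 1 ≤ n i)
    (hd : ∀ i, 1 ≤ d i) (hN : N = ∑ i, n i)
    (F : ∀ i, MvPolynomial (Fin (n i + 1)) ℂ) (hF : ∀ i, (F i).IsHomogeneous (d i))
    (hs : ∀ i, Smooth (F i)) (m : Fin R → ℕ) (hm : ∀ j, 1 ≤ m j) (a : Fin R → Fin r → ℕ)
    (hdiv : ∀ j i, m j ∣ a j i * d i)
    (K : Type) [Field K] [Algebra ℂ K] (x : ∀ i, Fin (n i + 1) → K) (hx0 : ∀ i, x i 0 ≠ 0)
    (hbas : IsTranscendenceBasis ℂ (affine x)) (z : Fin R → K)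
    (hz : ∀ j, z j ^ m j = ∏ i, (aeval (x i) (F i) / x i 0 ^ d i) ^ a j i)
    (hgen : IntermediateField.adjoin ℂ (Set.range (affine x) ∪ Set.range z) = ⊤)
    (fan : Finset (Finset (Fin r → ℕ))) (hfan : IsFan m a fan)
    (c : Fin p → (Fin r → ℕ) → ℚ) (hc0 : ∀ i, c i 0 = 0) (β : Fin p → Fin r → ℤ)
    (u : Finset (Fin r → ℕ) → Fin p → Fin r → ℚ)
    (hlin : ∀ σ ∈ fan, ∀ i v, Admissible m a v → InCone σ v → - c i v = ∑ k, u σ i k * v k)
    (δ : Fin p → Place ℂ K → ℚ) (hδ : ∀ i P, δ i P = coefficient F d x (c i) (β i) P) :
    (∃ (B : ℕ) (h : Fin B → Fin p → ℤ), (∀ b, BasePointFree N δ (h b)) ∧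
      {lam | IsNefUpTo N δ lam} = coneOf h ∧ {lam | IsNef N δ lam} = coneOf h) ∧
    ∀ δ' : Fin p → Place ℂ K → ℚ, IsSmallModification N δ δ' →
      (∃ (B : ℕ) (h : Fin B → Fin p → ℤ), (∀ b, BasePointFree N δ' (h b)) ∧
        {lam | IsNef N δ' lam} = coneOf h) ∧
      ((∀ lam, IsNef N δ' lam → IsNef N δ' (-lam) → lam = 0) →
        ∀ Γ : Subgroup (Matrix (Fin p) (Fin p) ℤ)ˣ,
          (∀ γ ∈ Γ, ∀ lam, IsNef N δ' lam → IsNef N δ' (apply γ lam)) →
          Finite Γ ∧ ∃ (M : ℕ) (π : Fin M → Fin p → ℤ), (∀ b, BasePointFree N δ' (π b)) ∧
            IsFundamentalDomain Γ {lam | IsNef N δ' lam} (coneOf π)) := by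
  obtain ⟨B, h, h1, h2⟩ := Pool.Agent.Q57.FT.main_nefcone (N := N) hr hn hN hd hF hs hx0 hbas hm hdiv
    hz hgen (S := fan) ⟨hfan.adm, hfan.full, hfan.cover⟩ hc0 (u := u) hlin (β := β) hδ
  refine ⟨⟨B, h, h1, Set.ext fun lam => (h2 lam).2, Set.ext fun lam =>
    nef_of_cone h1 (fun lam => (h2 lam).2) lam⟩, fun δ' hδ' => ?_⟩
  exact nef_main (Pool.Agent.Q57.CX.main_cox (N := N) hr hn hN hd hF hs hx0 hbas hm hdiv hz hgen
    (S := fan) ⟨hfan.adm, hfan.full, hfan.cover⟩ hc0 (u := u) hlin (β := β) hδ) hδ'

end Pool.Agent.Results.MP_9f99c5_ag.ToroidalModels
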